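import Mathlib

/-!
# Tie-breaking discrepancies in self-interest subtraction games are bounded

We formalise the self-interest cumulative subtraction game on a finite nonempty set `S` of
positive integers, with friendly / antagonistic tie-breaking, and prove that for every two of the
four settings FvF, AvA, FvA, AvF and each of the two players the discrepancy is bounded in the
heap size, with the explicit bound `max S / 2 + min S - 1`.
-/

namespace Pool.Agent.Results.MP_5cfb27_co.BoundedDiscrepancy

/-- A tie-breaking convention: friendly (`F`) or antagonistic (`A`). -/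
inductive Conv
  | F
  | A

/-- The pair picked by a mover with convention `c` from a finite set `C` of candidate pairs
(own total, opponent's total).  The mover restricts to the candidates whose first coordinate is
the maximum `C.sup Prod.fst`; among these a friendly mover takes the largest second coordinate,
an antagonistic mover the smallest one.  For `C = ∅` (no legal move) the value is `(0, 0)`. -/
noncomputable def pick (c : Conv) (C : Finset (ℕ × ℕ)) : ℕ × ℕ :=
  match c with
  | Conv.F => (C.sup Prod.fst, (C.filter fun p => p.1 = C.sup Prod.fst).sup Prod.snd)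
  | Conv.A => (C.sup Prod.fst, sInf (Prod.snd '' {p : ℕ × ℕ | p ∈ C ∧ p.1 = C.sup Prod.fst}))

/-- `outcome S c d h` is the pair of equilibrium totals `(first player, second player)` of the
self-interest subtraction game with move set `S` from the heap size `h`, in the setting `c v d`:
the player who moves first from `h` has tie-breaking convention `c`, the other one has `d`.
Each legal move `s` (that is `s ∈ S`, `1 ≤ s ≤ h`) gives the candidate pair
`(s + second coordinate of outcome S d c (h - s), first coordinate of outcome S d c (h - s))`,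
and the mover picks among the candidates.  If there is no legal move the outcome is `(0, 0)`. -/
noncomputable def outcome (S : Finset ℕ) (c d : Conv) (h : ℕ) : ℕ × ℕ :=
  pick c ((S.filter fun s => 1 ≤ s ∧ s ≤ h).attach.image fun s =>
    (s.1 + (outcome S d c (h - s.1)).2, (outcome S d c (h - s.1)).1))
termination_by h
decreasing_by
  all_goals
    have h1 := (Finset.mem_filter.mp s.2).2
    omega

/-- The total of the first player (`i = 0`) or of the second player (`i = 1`). -/
def total (i : Fin 2) (p : ℕ × ℕ) : ℕ := if i = 0 then p.1 else p.2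

/-- The discrepancy `δ^i_{X → Y}(h) = o^i_Y(h) - o^i_X(h)`, where a setting `c v d` is given as
the pair `(c, d)`. -/
noncomputable def discrepancy (S : Finset ℕ) (i : Fin 2) (X Y : Conv × Conv) (h : ℕ) : ℤ :=
  (total i (outcome S Y.1 Y.2 h) : ℤ) - total i (outcome S X.1 X.2 h)

/-! ### Basic facts on `pick` and the recursion -/

theorem pick_fst (c : Conv) (C : Finset (ℕ × ℕ)) : (pick c C).1 = C.sup Prod.fst := by
  cases c <;> rfl

theorem pick_mem (c : Conv) {C : Finset (ℕ × ℕ)} (hC : C.Nonempty) : pick c C ∈ C := by
  obtain ⟨p, hp, hpmax⟩ := Finset.exists_mem_eq_sup C hC Prod.fst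
  have hT : (C.filter fun p => p.1 = C.sup Prod.fst).Nonempty :=
    ⟨p, Finset.mem_filter.mpr ⟨hp, hpmax.symm⟩⟩
  cases c with
  | F =>
    obtain ⟨q, hq, hqmax⟩ := Finset.exists_mem_eq_sup _ hT Prod.snd
    have hq' := Finset.mem_filter.mp hq
    have : pick Conv.F C = q := by
      unfold pick
      ext
      · exact hq'.2.symm
      · exact hqmax
    rw [this]
    exact hq'.1
  | A =>
    have hne : (Prod.snd '' {p : ℕ × ℕ | p ∈ C ∧ p.1 = C.sup Prod.fst}).Nonempty :=
      ⟨p.2, p, ⟨hp, hpmax.symm⟩, rfl⟩
    obtain ⟨q, ⟨hq1, hq2⟩, hq3⟩ := Nat.sInf_mem hne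
    have : pick Conv.A C = q := by
      unfold pick
      ext
      · exact hq2.symm
      · exact hq3.symm
    rw [this]
    exact hq1

theorem outcome_eq (S : Finset ℕ) (c d : Conv) (h : ℕ) :
    outcome S c d h = pick c ((S.filter fun s => 1 ≤ s ∧ s ≤ h).image fun s =>
      (s + (outcome S d c (h - s)).2, (outcome S d c (h - s)).1)) := by
  rw [outcome]
  congr 1
  ext p
  simp only [Finset.mem_image, Finset.mem_attach, true_and, Subtype.exists]
  constructor
  · rintro ⟨s, hs, rfl⟩
    exact ⟨s, hs, rfl⟩
  · rintro ⟨s, hs, rfl⟩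
    exact ⟨s, hs, rfl⟩

/-- Every legal move gives a lower bound for the mover's equilibrium total. -/
theorem outcome_fst_ge (S : Finset ℕ) (c d : Conv) (h s : ℕ) (hs : s ∈ S) (h1 : 1 ≤ s)
    (h2 : s ≤ h) : s + (outcome S d c (h - s)).2 ≤ (outcome S c d h).1 := by
  rw [outcome_eq S c d h, pick_fst]
  exact Finset.le_sup (f := Prod.fst)
    (b := (s + (outcome S d c (h - s)).2, (outcome S d c (h - s)).1))
    (Finset.mem_image.mpr ⟨s, Finset.mem_filter.mpr ⟨hs, h1, h2⟩, rfl⟩)

/-- If there is a legal move, the outcome is the candidate pair of some legal move. -/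
theorem outcome_exists (S : Finset ℕ) (c d : Conv) (h t : ℕ) (ht : t ∈ S) (h1 : 1 ≤ t)
    (h2 : t ≤ h) : ∃ s ∈ S, 1 ≤ s ∧ s ≤ h ∧
      outcome S c d h = (s + (outcome S d c (h - s)).2, (outcome S d c (h - s)).1) := by
  have hne : ((S.filter fun s => 1 ≤ s ∧ s ≤ h).image fun s =>
      (s + (outcome S d c (h - s)).2, (outcome S d c (h - s)).1)).Nonempty :=
    ⟨_, Finset.mem_image.mpr ⟨t, Finset.mem_filter.mpr ⟨ht, h1, h2⟩, rfl⟩⟩
  have hm := pick_mem c hne
  rw [← outcome_eq S c d h] at hm
  obtain ⟨s, hs, hs'⟩ := Finset.mem_image.mp hm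
  have hs2 := Finset.mem_filter.mp hs
  exact ⟨s, hs2.1, hs2.2.1, hs2.2.2, hs'.symm⟩

/-- If there is no legal move, the outcome is `(0, 0)`. -/
theorem outcome_none (S : Finset ℕ) (c d : Conv) (h : ℕ)
    (hno : ∀ s ∈ S, 1 ≤ s → ¬ s ≤ h) : outcome S c d h = (0, 0) := by
  rw [outcome_eq]
  have : (S.filter fun s => 1 ≤ s ∧ s ≤ h) = ∅ := by
    apply Finset.filter_eq_empty_iff.mpr
    intro s hs hc
    exact hno s hs hc.1 hc.2
  rw [this]
  cases c <;> simp [pick]

/-- The main induction.  Write `μ = min S`.  In every setting and for every heap size `h`: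
the two totals add up to at most `h`; twice the mover's total is at least `h + 1 - μ`; and twice
the second player's total is at least `h + 1 - μ - s` for some legal move `s` (if there is a
legal move at all). -/
theorem main_bounds (S : Finset ℕ) (hS : S.Nonempty) (hpos : ∀ s ∈ S, 1 ≤ s) (h : ℕ) :
    ∀ c d : Conv,
      (outcome S c d h).1 + (outcome S c d h).2 ≤ h ∧
      h + 1 ≤ 2 * (outcome S c d h).1 + S.min' hS ∧
      (h < S.min' hS ∨
        ∃ s ∈ S, s ≤ h ∧ h + 1 ≤ 2 * (outcome S c d h).2 + s + S.min' hS) := by
  induction h using Nat.strong_induction_on with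
  | _ h ih =>
    intro c d
    set μ := S.min' hS with hμ
    by_cases hlt : h < μ
    · have h0 : outcome S c d h = (0, 0) := by
        apply outcome_none
        intro s hs _ hle
        have := S.min'_le s hs
        omega
      rw [h0]
      refine ⟨by simp, by simp; omega, Or.inl hlt⟩
    · push Not at hlt
      have hμS : μ ∈ S := S.min'_mem hS
      have hμ1 : 1 ≤ μ := hpos μ hμS
      obtain ⟨t, htS, ht1, hth, hteq⟩ := outcome_exists S c d h μ hμS hμ1 hlt
      refine ⟨?_, ?_, ?_⟩
      · -- the totals add up to at most `h`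
        have h3 := (ih (h - t) (by omega) d c).1
        rw [hteq]
        simp only
        omega
      · -- the mover's total is large: use the largest legal move
        have hLne : (S.filter fun s => s ≤ h).Nonempty :=
          ⟨μ, Finset.mem_filter.mpr ⟨hμS, hlt⟩⟩
        set s := (S.filter fun s => s ≤ h).max' hLne with hsdef
        have hsL := Finset.mem_filter.mp ((S.filter fun s => s ≤ h).max'_mem hLne)
        rw [← hsdef] at hsL
        have hs1 : 1 ≤ s := hpos s hsL.1
        have hge := outcome_fst_ge S c d h s hsL.1 hs1 hsL.2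
        have hrec := (ih (h - s) (by omega) d c).2.2
        rcases hrec with hrec | ⟨s', hs'S, hs'le, hs'⟩
        · omega
        · have hs's : s' ≤ s := by
            apply Finset.le_max'
            exact Finset.mem_filter.mpr ⟨hs'S, by omega⟩
          omega
      · -- the second player's total is large
        right
        refine ⟨t, htS, hth, ?_⟩
        have h3 := (ih (h - t) (by omega) d c).2.1
        rw [hteq]
        simp only
        omega

/-- **All discrepancies are bounded.**  For every finite nonempty set `S` of positive integers,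
every two settings `X, Y` among FvF, AvA, FvA, AvF and each player `i`, the discrepancy
`δ^i_{X → Y}(h)` is bounded in the heap size `h`; in fact
`|δ^i_{X → Y}(h)| ≤ max S / 2 + min S - 1` for all `h`. -/
theorem result (S : Finset ℕ) (hS : S.Nonempty) (hpos : ∀ s ∈ S, 1 ≤ s)
    (X Y : Conv × Conv) (i : Fin 2) :
    BddAbove (Set.range fun h : ℕ => |discrepancy S i X Y h|) ∧
      ∀ h : ℕ, 2 * |discrepancy S i X Y h| ≤ (S.max' hS : ℤ) + 2 * (S.min' hS : ℤ) - 2 := by
  have key : ∀ h : ℕ,
      2 * |discrepancy S i X Y h| ≤ (S.max' hS : ℤ) + 2 * (S.min' hS : ℤ) - 2 := by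
    intro h
    have hμ1 : 1 ≤ S.min' hS := hpos _ (S.min'_mem hS)
    have hμm : S.min' hS ≤ S.max' hS := S.min'_le _ (S.max'_mem hS)
    have bd : ∀ Z : Conv × Conv,
        (outcome S Z.1 Z.2 h).1 + (outcome S Z.1 Z.2 h).2 ≤ h ∧
        h + 1 ≤ 2 * (outcome S Z.1 Z.2 h).1 + S.min' hS ∧
        h + 1 ≤ 2 * (outcome S Z.1 Z.2 h).2 + S.max' hS + S.min' hS := by
      intro Z
      obtain ⟨h1, h2, h3⟩ := main_bounds S hS hpos h Z.1 Z.2
      refine ⟨h1, h2, ?_⟩
      rcases h3 with h3 | ⟨s, hs, _, h3⟩
      · omega
      · have := S.le_max' s hs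
        omega
    obtain ⟨hX1, hX2, hX3⟩ := bd X
    obtain ⟨hY1, hY2, hY3⟩ := bd Y
    have h2abs : 2 * |discrepancy S i X Y h| = |2 * discrepancy S i X Y h| := by
      rw [abs_mul]
      norm_num
    rw [h2abs, abs_le]
    unfold discrepancy total
    fin_cases i
    · simp only [Fin.zero_eta, ↓reduceIte]
      constructor <;> omega
    · simp only [Fin.mk_one, Fin.isValue, one_ne_zero, ↓reduceIte]
      constructor <;> omega
  refine ⟨?_, key⟩
  refine ⟨(S.max' hS : ℤ) + 2 * (S.min' hS : ℤ) - 2, ?_⟩
  rintro x ⟨h, rfl⟩
  have h1 := key h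
  have h2 := abs_nonneg (discrepancy S i X Y h)
  simp only
  omega

end Pool.Agent.Results.MP_5cfb27_co.BoundedDiscrepancy
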